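import Mathlib
import Pool.Agent.W25.QL.Comb

/-!
Counting in complexes that do not fail: `(1 / lam) ^ k - ε` of the `(k + 1)`-tuples in general, and
`1 / 3 - ε` of the pairs if `lam < 4` (Turán's theorem).
-/

set_option autoImplicit false

namespace Pool.Agent.W25.QL

open Finset

theorem bernoulli_aux {lam : ℝ} (hlam : 0 < lam) (k T : ℕ) (ε : ℝ) (hε : 0 < ε) (hε1 : ε ≤ 1)
    (hT0 : 0 < T) (hT : lam * (k : ℝ) * (k + 1) * (1 / ε) ≤ T) :
    1 - ε ≤ (1 - lam * (k : ℝ) / T) ^ (k + 1) := by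
  have hT' : (0 : ℝ) < T := by exact_mod_cast hT0
  have h2 : lam * (k : ℝ) * (k + 1) / T ≤ ε := by
    rw [div_le_iff₀ hT']
    calc lam * (k : ℝ) * (k + 1) = ε * (lam * (k : ℝ) * (k + 1) * (1 / ε)) := by
          field_simp
      _ ≤ ε * T := mul_le_mul_of_nonneg_left hT (by positivity)
  have h3 : lam * (k : ℝ) / T ≤ lam * (k : ℝ) * (k + 1) / T := by
    apply div_le_div_of_nonneg_right _ hT'.le
    have h0 : (0 : ℝ) ≤ k := Nat.cast_nonneg _
    have h1 : 0 ≤ lam * (k : ℝ) := by positivity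
    nlinarith
  have h4 := one_add_mul_le_pow (a := -(lam * (k : ℝ) / T)) (by linarith) (k + 1)
  have h5 : 1 + ((k + 1 : ℕ) : ℝ) * (-(lam * (k : ℝ) / T)) = 1 - lam * (k : ℝ) * (k + 1) / T := by
    push_cast; ring
  rw [h5] at h4
  have h6 : 1 + -(lam * (k : ℝ) / T) = 1 - lam * (k : ℝ) / T := by ring
  rw [h6] at h4
  linarith

open Classical in
theorem count_pow {lam : ℝ} (hlam : 1 ≤ lam) (k : ℕ) (ε : ℝ) (hε : 0 < ε) : ∃ T : ℕ, 1 ≤ T ∧
    ∀ C : Finset (Finset (Fin T)),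
      (∀ S ∈ C, ∀ S', S' ⊆ S → S' ∈ C) → (∀ m, ¬ Fails lam C m) →
      ((1 / lam) ^ k - ε) * (T : ℝ) ^ (k + 1) ≤ ((univ.filter (fun u : Fin (k + 1) → Fin T =>
        Function.Injective u ∧ univ.image u ∈ C)).card : ℝ) := by
  have hlam0 : 0 < lam := by linarith
  have h14' : (1 / lam : ℝ) ^ k ≤ 1 := by
    apply pow_le_one₀ (by positivity)
    rw [div_le_one hlam0]
    exact hlam
  rcases le_or_gt ε 1 with hε1 | hε1
  swap
  · refine ⟨1, le_rfl, fun C _ _ => ?_⟩
    have : ((1 / lam) ^ k - ε) * ((1 : ℕ) : ℝ) ^ (k + 1) ≤ 0 :=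
      mul_nonpos_of_nonpos_of_nonneg (by linarith) (by positivity)
    exact this.trans (Nat.cast_nonneg _)
  obtain ⟨T, hT⟩ : ∃ T : ℕ, T = ⌈lam * (k : ℝ) * (k + 1) * (1 / ε)⌉₊ + ⌈lam * k⌉₊ + 1 := ⟨_, rfl⟩
  have hT1 : 1 ≤ T := by omega
  have hTp : (0 : ℝ) < T := by exact_mod_cast hT1
  have hTb : lam * (k : ℝ) * (k + 1) * (1 / ε) ≤ T :=
    (Nat.le_ceil _).trans (by rw [hT]; push_cast; linarith [Nat.cast_nonneg (α := ℝ) ⌈lam * k⌉₊])
  have hTk : lam * (k : ℝ) ≤ T :=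
    (Nat.le_ceil _).trans (by
      rw [hT]; push_cast
      linarith [Nat.cast_nonneg (α := ℝ) ⌈lam * (k : ℝ) * (k + 1) * (1 / ε)⌉₊])
  have hbern := bernoulli_aux hlam0 k T ε hε hε1 hT1 hTb
  refine ⟨T, hT1, fun C hC hm => ?_⟩
  have hw0 : ∀ m : Fin T → ℕ, 1 ≤ ∑ g, m g →
      ∃ S ∈ C, ((∑ g, m g : ℕ) : ℝ) ≤ lam * ((∑ g ∈ S, m g : ℕ) : ℝ) := by
    intro m hm1
    by_contra hcon
    push Not at hcon
    exact hm m ⟨hm1, hcon⟩
  have hw : ∀ m : Fin T → ℕ, ∃ S ∈ C, ((∑ g, m g : ℕ) : ℝ) ≤ lam * ((∑ g ∈ S, m g : ℕ) : ℝ) := by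
    intro m
    rcases Nat.eq_zero_or_pos (∑ g, m g) with h0 | h0
    · obtain ⟨S, hS, _⟩ := hw0 (fun _ => 1) (by simp; exact hT1)
      refine ⟨S, hS, ?_⟩
      rw [h0]
      push_cast
      positivity
    · exact hw0 m h0
  have h1 := count hlam0 C hC hw (k := k) (by
    rw [le_div_iff₀ hlam0]; linarith)
  refine le_trans ?_ h1
  have ha : lam * ((T : ℝ) / lam - k) ^ (k + 1) =
      (1 / lam : ℝ) ^ k * (1 - lam * (k : ℝ) / T) ^ (k + 1) * (T : ℝ) ^ (k + 1) := by
    have h1 : (T : ℝ) / lam - k = (1 / lam) * ((1 - lam * (k : ℝ) / T) * T) := by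
      field_simp
    rw [h1, mul_pow, mul_pow, pow_succ (1 / lam)]
    have h2 : lam * (1 / lam) = 1 := by field_simp
    linear_combination ((1 / lam) ^ k * (1 - lam * (k : ℝ) / T) ^ (k + 1) * (T : ℝ) ^ (k + 1)) * h2
  rw [ha]
  apply mul_le_mul_of_nonneg_right _ (by positivity)
  have h14 : (0 : ℝ) < (1 / lam : ℝ) ^ k := by positivity
  have h2 : (1 / lam : ℝ) ^ k * (1 - ε) ≤ (1 / lam : ℝ) ^ k * (1 - lam * (k : ℝ) / T) ^ (k + 1) :=
    mul_le_mul_of_nonneg_left hbern h14.le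
  nlinarith

open Classical in
theorem count_pair {lam : ℝ} (hlam : 0 < lam) (hlam4 : lam < 4) (ε : ℝ) (hε : 0 < ε) :
    ∃ T : ℕ, 1 ≤ T ∧ ∀ C : Finset (Finset (Fin T)),
      (∀ S ∈ C, ∀ S', S' ⊆ S → S' ∈ C) → (∀ m, ¬ Fails lam C m) →
      (1 / 3 - ε) * (T : ℝ) ^ (1 + 1) ≤ ((univ.filter (fun u : Fin (1 + 1) → Fin T =>
        Function.Injective u ∧ univ.image u ∈ C)).card : ℝ) := by
  obtain ⟨s, hs⟩ := exists_nat_gt (1 / ε)
  have hs0 : (0 : ℝ) < s := lt_trans (by positivity) hs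
  have hs1 : 0 < s := by exact_mod_cast hs0
  refine ⟨3 * s, by omega, fun C hC hm => ?_⟩
  set H : SimpleGraph (Fin (3 * s)) :=
    { Adj := fun i j => i ≠ j ∧ ({i, j} : Finset (Fin (3 * s))) ∉ C
      symm := ⟨fun i j h => ⟨h.1.symm, by rw [Finset.pair_comm]; exact h.2⟩⟩
      loopless := ⟨fun i h => h.1 rfl⟩ } with hH
  have hfree : H.CliqueFree (3 + 1) := by
    intro t ht
    rw [SimpleGraph.isNClique_iff] at ht
    obtain ⟨hcl, hcard⟩ := ht
    apply hm (fun g => if g ∈ t then 1 else 0)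
    have hsum : ∑ g : Fin (3 * s), (if g ∈ t then 1 else 0) = 4 := by
      rw [Finset.sum_ite_mem, Finset.univ_inter, Finset.sum_const, hcard]
      norm_num
    refine ⟨by rw [hsum]; norm_num, fun S hS => ?_⟩
    have h1 : ∑ g ∈ S, (if g ∈ t then 1 else 0) ≤ 1 := by
      rw [Finset.sum_ite_mem, Finset.sum_const, smul_eq_mul, mul_one]
      rw [Finset.card_le_one]
      intro a ha b hb
      by_contra hab
      rw [mem_inter] at ha hb
      have h2 : H.Adj a b := hcl (by exact_mod_cast ha.2) (by exact_mod_cast hb.2) hab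
      apply h2.2
      apply hC S hS
      intro c hc
      rw [mem_insert, mem_singleton] at hc
      rcases hc with rfl | rfl
      · exact ha.1
      · exact hb.1
    rw [hsum]
    have h2 : ((∑ g ∈ S, (if g ∈ t then 1 else 0) : ℕ) : ℝ) ≤ 1 := by exact_mod_cast h1
    have h3 : lam * ((∑ g ∈ S, (if g ∈ t then 1 else 0) : ℕ) : ℝ) ≤ lam * 1 :=
      mul_le_mul_of_nonneg_left h2 hlam.le
    push_cast at h3 ⊢
    linarith
  have hedge : H.edgeFinset.card ≤ 3 * s ^ 2 := by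
    have h1 := hfree.card_edgeFinset_le
    simp only [Fintype.card_fin] at h1
    have h2 : 3 * s % 3 = 0 := Nat.mul_mod_right 3 s
    rw [h2] at h1
    refine h1.trans ?_
    have h3 : ((3 * s) ^ 2 - 0 ^ 2) * (3 - 1) / (2 * 3) = 3 * s ^ 2 := by
      have : ((3 * s) ^ 2 - 0 ^ 2) * (3 - 1) = (2 * 3) * (3 * s ^ 2) := by
        norm_num
        ring
      rw [this]
      exact Nat.mul_div_cancel_left _ (by norm_num)
    rw [h3]
    simp
  set Good := univ.filter (fun u : Fin (1 + 1) → Fin (3 * s) =>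
        Function.Injective u ∧ univ.image u ∈ C) with hGood
  have hcov : (univ : Finset (Fin (1 + 1) → Fin (3 * s))) ⊆
      Good ∪ univ.image (fun d : H.Dart => (![d.fst, d.snd] : Fin (1 + 1) → Fin (3 * s))) ∪
        univ.image (fun (i : Fin (3 * s)) => (fun _ : Fin (1 + 1) => i)) := by
    intro u _
    rw [mem_union, mem_union]
    by_cases h0 : u 0 = u 1
    · right
      rw [mem_image]
      refine ⟨u 0, mem_univ _, ?_⟩
      funext j
      fin_cases j
      · rfl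
      · exact h0
    · left
      have himg : univ.image u = {u 0, u 1} := by
        ext a
        simp [Fin.exists_fin_two, eq_comm]
      by_cases h1 : univ.image u ∈ C
      · left
        rw [hGood, mem_filter]
        refine ⟨mem_univ _, ?_, h1⟩
        intro a b hab
        fin_cases a <;> fin_cases b
        · rfl
        · exact absurd hab h0
        · exact absurd hab.symm h0
        · rfl
      · right
        rw [mem_image]
        have hadj : H.Adj (u 0) (u 1) := ⟨h0, by rw [← himg]; exact h1⟩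
        refine ⟨⟨(u 0, u 1), hadj⟩, mem_univ _, ?_⟩
        funext j
        fin_cases j <;> rfl
  have hc := card_le_card hcov
  rw [card_univ, Fintype.card_fun, Fintype.card_fin, Fintype.card_fin] at hc
  have hc2 := (card_union_le (Good ∪ univ.image (fun d : H.Dart =>
      (![d.fst, d.snd] : Fin (1 + 1) → Fin (3 * s))))
      (univ.image (fun (i : Fin (3 * s)) => (fun _ : Fin (1 + 1) => i))))
  have hc3 := card_union_le Good (univ.image (fun d : H.Dart =>
      (![d.fst, d.snd] : Fin (1 + 1) → Fin (3 * s))))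
  have hc4 : (univ.image (fun d : H.Dart =>
      (![d.fst, d.snd] : Fin (1 + 1) → Fin (3 * s)))).card ≤ 2 * (3 * s ^ 2) := by
    refine card_image_le.trans ?_
    rw [card_univ, SimpleGraph.dart_card_eq_twice_card_edges]
    exact Nat.mul_le_mul_left _ hedge
  have hc5 : (univ.image (fun (i : Fin (3 * s)) => (fun _ : Fin (1 + 1) => i))).card ≤ 3 * s := by
    refine card_image_le.trans ?_
    rw [card_univ, Fintype.card_fin]
  have hfin : (3 * s) ^ (1 + 1) ≤ Good.card + 2 * (3 * s ^ 2) + 3 * s := by omega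
  have hfinR : (3 * (s : ℝ)) ^ 2 ≤ Good.card + 2 * (3 * (s : ℝ) ^ 2) + 3 * s := by
    exact_mod_cast hfin
  have hes : 1 < ε * s := by
    rw [div_lt_iff₀ hε] at hs
    linarith
  push_cast
  have h9 : (s : ℝ) ≤ ε * s * s := by nlinarith
  norm_num
  nlinarith

end Pool.Agent.W25.QL
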