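import Mathlib
import Pool.Agent.W25.QL.Comb
import Pool.Agent.W70.QP.Main

/-!
The combinatorial theorem: the property `QProp lam` implies that at least `(δ - ε) |V| ^ (k + 1)`
of the `(k + 1)`-tuples are in the family, if this holds for the complexes which do not fail.
-/

set_option autoImplicit false

namespace Pool.Agent.W25.QL

open Finset
open Pool.Agent.W70.QP (Cx mem_Cx card_pull)

open Classical in
/-- the bad tuples are rare -/
theorem bad_rare {lam : ℝ} (hlam : 0 < lam) (T : ℕ) (Kf : ℕ → ℕ) (δ : ℝ) (hδ : 0 < δ) : ∃ M : ℕ,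
    ∀ (R : Type) [Fintype R] [DecidableEq R], ∃ n₀ : ℕ, ∀ (α : Type) [DecidableEq α]
      (V : Finset α) (res : α → R) (G : Finset α → Prop), n₀ ≤ V.card →
      (∀ F F' : Finset α, F' ⊆ F → G F → G F') → QProp lam Kf T M V res G →
      (((Fintype.piFinset (fun _ : Fin T => V)).filter (fun x => Function.Injective x ∧
        ∃ m, Fails lam (Cx G x) m)).card : ℝ) ≤ δ * (V.card : ℝ) ^ T := by
  set sz : Finset (Finset (Fin T)) → ℕ := fun C =>
    if h : ∃ m, Fails lam C m then ∑ g, h.choose g else 0 with hsz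
  refine ⟨∑ C, sz C, ?_⟩
  intro R _ _
  set L : ℕ := ∑ C, sz C * Kf (sz C) + 1 with hL
  set N1 : ℕ := Fintype.card (Finset (Finset (Fin T)) × (Fin T → R)) with hN1
  set δ' : ℝ := δ / (N1 + 1) with hδ'
  have hN1p : (0 : ℝ) < N1 + 1 := by positivity
  have hδ'0 : 0 < δ' := by positivity
  obtain ⟨N0, hN0⟩ := Pool.Agent.H362R2.CM.box_lemma T L δ' hδ'0
  refine ⟨N0 + 1, ?_⟩
  intro α _ V res G hV hG hQ
  by_contra hcon'
  have hcon := not_le.1 hcon'
  set Bad := (Fintype.piFinset (fun _ : Fin T => V)).filter (fun x => Function.Injective x ∧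
        ∃ m, Fails lam (Cx G x) m) with hBad
  have hVne : V.Nonempty := card_pos.1 (by omega)
  obtain ⟨v0, hv0⟩ := hVne
  have hne : (univ : Finset (Finset (Finset (Fin T)) × (Fin T → R))).Nonempty :=
    ⟨(∅, fun _ => res v0), mem_univ _⟩
  obtain ⟨⟨C, ρ⟩, _, hCρ⟩ := Finset.exists_le_card_fiber_of_nsmul_le_card_of_maps_to
    (s := Bad) (t := (univ : Finset (Finset (Finset (Fin T)) × (Fin T → R))))
    (f := fun x => (Cx G x, fun i => res (x i))) (fun _ _ => mem_univ _) hne
    (b := δ' * (V.card : ℝ) ^ T) (by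
      rw [nsmul_eq_mul, card_univ, ← hN1]
      refine le_trans ?_ hcon.le
      rw [← mul_assoc]
      apply mul_le_mul_of_nonneg_right _ (by positivity)
      rw [hδ', mul_div_assoc', div_le_iff₀ hN1p]
      nlinarith)
  set B := Bad.filter (fun x => (Cx G x, fun i => res (x i)) = (C, ρ)) with hB
  have hBmem : ∀ x ∈ B, (∀ i, x i ∈ V) ∧ Function.Injective x ∧ (∃ m, Fails lam C m) ∧
      Cx G x = C ∧ ∀ i, res (x i) = ρ i := by
    intro x hx
    rw [hB, mem_filter, hBad, mem_filter, Fintype.mem_piFinset, Prod.mk.injEq] at hx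
    refine ⟨hx.1.1, hx.1.2.1, ?_, hx.2.1, fun i => congrFun hx.2.2 i⟩
    rw [← hx.2.1]
    exact hx.1.2.2
  have hBsub : B ⊆ Fintype.piFinset (fun _ : Fin T => V) := by
    intro x hx
    rw [Fintype.mem_piFinset]
    exact (hBmem x hx).1
  obtain ⟨A, hA1, hA2⟩ := hN0 α (fun _ => V) (fun _ => by omega) B hBsub (by
    rw [prod_const, card_univ, Fintype.card_fin]
    exact hCρ)
  have hex : ∃ m, Fails lam C m := by
    have hL0 : 0 < L := by omega
    exact (hBmem _ (hA2 (fun _ => ⟨0, hL0⟩))).2.2.1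
  have hszC : sz C = ∑ g, hex.choose g := by
    rw [hsz]
    simp only [dif_pos hex]
  have h1 : sz C ≤ ∑ C, sz C := Finset.single_le_sum (f := sz) (fun _ _ => Nat.zero_le _) (mem_univ C)
  have h2 : sz C * Kf (sz C) ≤ ∑ C, sz C * Kf (sz C) :=
    Finset.single_le_sum (f := fun C => sz C * Kf (sz C)) (fun _ _ => Nat.zero_le _) (mem_univ C)
  refine no_box hlam hG hQ C hex.choose hex.choose_spec (by rw [← hszC]; exact h1)
    (by rw [← hszC]; omega) ρ A hA1 (fun c => ?_)
  obtain ⟨a1, a2, _, a4, a5⟩ := hBmem _ (hA2 c)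
  exact ⟨a1, a2, a4, a5⟩

open Classical in
/-- the combinatorial theorem -/
theorem main_gen {lam : ℝ} (hlam : 0 < lam) (k : ℕ) (δ : ℝ) (hδ1 : δ ≤ 1)
    (hcount : ∀ ε : ℝ, 0 < ε → ∃ T : ℕ, 1 ≤ T ∧ ∀ C : Finset (Finset (Fin T)),
      (∀ S ∈ C, ∀ S', S' ⊆ S → S' ∈ C) → (∀ m, ¬ Fails lam C m) →
      (δ - ε) * (T : ℝ) ^ (k + 1) ≤ ((univ.filter (fun u : Fin (k + 1) → Fin T =>
        Function.Injective u ∧ univ.image u ∈ C)).card : ℝ))
    (ε : ℝ) (hε : 0 < ε) (Kf : ℕ → ℕ) : ∃ T M : ℕ, 1 ≤ T ∧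
    ∀ (R : Type) [Fintype R] [DecidableEq R], ∃ n₀ : ℕ, ∀ (α : Type) [DecidableEq α]
      (V : Finset α) (res : α → R) (G : Finset α → Prop), n₀ ≤ V.card →
      (∀ F F' : Finset α, F' ⊆ F → G F → G F') → QProp lam Kf T M V res G →
      (δ - ε) * (V.card : ℝ) ^ (k + 1) ≤
        (((Fintype.piFinset (fun _ : Fin (k + 1) => V)).filter (fun y => Function.Injective y ∧
          G (univ.image y))).card : ℝ) := by
  have htriv : δ - ε ≤ 0 → ∃ T M : ℕ, 1 ≤ T ∧
    ∀ (R : Type) [Fintype R] [DecidableEq R], ∃ n₀ : ℕ, ∀ (α : Type) [DecidableEq α]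
      (V : Finset α) (res : α → R) (G : Finset α → Prop), n₀ ≤ V.card →
      (∀ F F' : Finset α, F' ⊆ F → G F → G F') → QProp lam Kf T M V res G →
      (δ - ε) * (V.card : ℝ) ^ (k + 1) ≤
        (((Fintype.piFinset (fun _ : Fin (k + 1) => V)).filter (fun y => Function.Injective y ∧
          G (univ.image y))).card : ℝ) := by
    intro h
    refine ⟨1, 0, le_rfl, fun R _ _ => ⟨0, fun α _ V res G _ _ _ => ?_⟩⟩
    have : (δ - ε) * (V.card : ℝ) ^ (k + 1) ≤ 0 :=
      mul_nonpos_of_nonpos_of_nonneg h (by positivity)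
    exact this.trans (Nat.cast_nonneg _)
  rcases le_or_gt δ ε with hδε | hδε
  · exact htriv (by linarith)
  clear htriv
  have hε1 : ε ≤ 1 := by linarith
  obtain ⟨T, hT1, hTc⟩ := hcount (ε / 4) (by linarith)
  have hTp : (0 : ℝ) < T := by exact_mod_cast hT1
  obtain ⟨M, hM⟩ := bad_rare hlam T Kf (ε / 4) (by linarith)
  refine ⟨T, M, hT1, fun R _ _ => ?_⟩
  obtain ⟨n₀, hn₀⟩ := hM R
  refine ⟨max n₀ (⌈4 * (T : ℝ) ^ 2 / ε⌉₊ + 1), ?_⟩
  intro α _ V res G hV hG hQ
  have hbad := hn₀ α V res G ((le_max_left _ _).trans hV) hG hQ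
  set n : ℝ := (V.card : ℝ) with hn
  have hn1 : ⌈4 * (T : ℝ) ^ 2 / ε⌉₊ + 1 ≤ V.card := (le_max_right _ _).trans hV
  have hn0 : 0 < n := by
    have : 0 < V.card := by omega
    rw [hn]; exact_mod_cast this
  have hnT : (T : ℝ) ^ 2 ≤ ε / 4 * n := by
    have h1 : 4 * (T : ℝ) ^ 2 / ε ≤ n := by
      calc 4 * (T : ℝ) ^ 2 / ε ≤ ⌈4 * (T : ℝ) ^ 2 / ε⌉₊ := Nat.le_ceil _
        _ ≤ n := by rw [hn]; exact_mod_cast (by omega : ⌈4 * (T : ℝ) ^ 2 / ε⌉₊ ≤ V.card)
    rw [div_le_iff₀ hε] at h1
    linarith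
  have hni := Pool.Agent.H362R2.CM.card_not_injective_le T V
  rw [← hn] at hni
  have hni' : (((Fintype.piFinset (fun _ : Fin T => V)).filter
      (fun φ => ¬ Function.Injective φ)).card : ℝ) ≤ ε / 4 * n ^ T := by
    have h1 : (((Fintype.piFinset (fun _ : Fin T => V)).filter
      (fun φ => ¬ Function.Injective φ)).card : ℝ) * n ≤ (ε / 4 * n ^ T) * n := by
      refine le_trans (le_of_eq (by congr!)) (hni.trans ?_)
      calc (T : ℝ) ^ 2 * n ^ T ≤ (ε / 4 * n) * n ^ T :=
            mul_le_mul_of_nonneg_right hnT (by positivity)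
        _ = _ := by ring
    exact le_of_mul_le_mul_right h1 hn0
  set Bad := (Fintype.piFinset (fun _ : Fin T => V)).filter (fun x => Function.Injective x ∧
        ∃ m, Fails lam (Cx G x) m) with hBad
  set NI := (Fintype.piFinset (fun _ : Fin T => V)).filter
      (fun φ => ¬ Function.Injective φ) with hNI
  set Gd := (Fintype.piFinset (fun _ : Fin T => V)).filter (fun x => Function.Injective x ∧
        ¬ ∃ m, Fails lam (Cx G x) m) with hGd
  have hGd' : (1 - ε / 2) * n ^ T ≤ (Gd.card : ℝ) := by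
    have h1 : (Fintype.piFinset (fun _ : Fin T => V)).card ≤ Bad.card + NI.card + Gd.card := by
      have h2 : Fintype.piFinset (fun _ : Fin T => V) ⊆ Bad ∪ NI ∪ Gd := by
        intro x hx
        simp only [hBad, hNI, hGd, mem_union, mem_filter]
        by_cases h3 : Function.Injective x
        · by_cases h4 : ∃ m, Fails lam (Cx G x) m
          · exact Or.inl (Or.inl ⟨hx, h3, h4⟩)
          · exact Or.inr ⟨hx, h3, h4⟩
        · exact Or.inl (Or.inr ⟨hx, h3⟩)
      refine (card_le_card h2).trans ((card_union_le _ _).trans ?_)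
      exact Nat.add_le_add_right (card_union_le _ _) _
    have h2 : (Fintype.piFinset (fun _ : Fin T => V)).card = V.card ^ T := by
      rw [Fintype.card_piFinset, prod_const, card_univ, Fintype.card_fin]
    rw [h2] at h1
    have h3 : n ^ T ≤ (Bad.card : ℝ) + NI.card + Gd.card := by
      rw [hn]; exact_mod_cast h1
    linarith
  set P : (Fin (k + 1) → α) → Prop := fun y => Function.Injective y ∧ G (univ.image y) with hP
  set Y := (Fintype.piFinset (fun _ : Fin (k + 1) => V)).filter P with hY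
  -- every good tuple contains many good subtuples
  have hlow : ∀ x ∈ Gd, (δ - ε / 4) * (T : ℝ) ^ (k + 1) ≤
      ((univ.filter (fun u : Fin (k + 1) → Fin T => Function.Injective u ∧
        P (fun i => x (u i)))).card : ℝ) := by
    intro x hx
    rw [hGd, mem_filter] at hx
    obtain ⟨_, hxi, hxf⟩ := hx
    push Not at hxf
    have hdc : ∀ S ∈ Cx G x, ∀ S', S' ⊆ S → S' ∈ Cx G x := by
      intro S hS S' hS'
      rw [mem_Cx] at hS ⊢
      exact hG _ _ (image_subset_image hS') hS
    refine (hTc (Cx G x) hdc hxf).trans ?_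
    have : (univ.filter (fun u : Fin (k + 1) → Fin T =>
      Function.Injective u ∧ univ.image u ∈ Cx G x)) ⊆ (univ.filter (fun u : Fin (k + 1) → Fin T =>
        Function.Injective u ∧ P (fun i => x (u i)))) := by
      intro u hu
      rw [mem_filter] at hu ⊢
      refine ⟨mem_univ _, hu.2.1, hxi.comp hu.2.1, ?_⟩
      have h1 := mem_Cx.1 hu.2.2
      rw [image_image] at h1
      exact h1
    exact_mod_cast card_le_card this
  -- double counting
  have hdc : (∑ x ∈ Fintype.piFinset (fun _ : Fin T => V),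
      (univ.filter (fun u : Fin (k + 1) → Fin T => Function.Injective u ∧
        P (fun i => x (u i)))).card) * V.card ^ (k + 1) ≤
      T ^ (k + 1) * (V.card ^ T * Y.card) := by
    have h1 : (∑ x ∈ Fintype.piFinset (fun _ : Fin T => V),
      (univ.filter (fun u : Fin (k + 1) → Fin T => Function.Injective u ∧
        P (fun i => x (u i)))).card) = ∑ u : Fin (k + 1) → Fin T, if Function.Injective u then
          ((Fintype.piFinset (fun _ : Fin T => V)).filter (fun x => P (fun i => x (u i)))).card else 0 := by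
      simp only [card_filter]
      rw [Finset.sum_comm]
      refine Finset.sum_congr rfl fun u _ => ?_
      split_ifs with h
      · simp [h]
      · simp [h]
    rw [h1, Finset.sum_mul]
    calc ∑ u : Fin (k + 1) → Fin T, (if Function.Injective u then
          ((Fintype.piFinset (fun _ : Fin T => V)).filter (fun x => P (fun i => x (u i)))).card else 0) *
            V.card ^ (k + 1) ≤ ∑ _u : Fin (k + 1) → Fin T, V.card ^ T * Y.card := by
          refine Finset.sum_le_sum fun u _ => ?_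
          split_ifs with h
          · refine le_of_eq ?_
            have h9 := card_pull V u h P
            convert h9
          · rw [Nat.zero_mul]; exact Nat.zero_le _
      _ = T ^ (k + 1) * (V.card ^ T * Y.card) := by
          rw [sum_const, card_univ, Fintype.card_fun, Fintype.card_fin, Fintype.card_fin, smul_eq_mul]
  have hdcR : ((∑ x ∈ Fintype.piFinset (fun _ : Fin T => V),
      (univ.filter (fun u : Fin (k + 1) → Fin T => Function.Injective u ∧
        P (fun i => x (u i)))).card : ℕ) : ℝ) * n ^ (k + 1) ≤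
      (T : ℝ) ^ (k + 1) * (n ^ T * Y.card) := by
    rw [hn]; exact_mod_cast hdc
  have hsum : (Gd.card : ℝ) * ((δ - ε / 4) * (T : ℝ) ^ (k + 1)) ≤
      ((∑ x ∈ Fintype.piFinset (fun _ : Fin T => V),
      (univ.filter (fun u : Fin (k + 1) → Fin T => Function.Injective u ∧
        P (fun i => x (u i)))).card : ℕ) : ℝ) := by
    push_cast
    rw [← nsmul_eq_mul]
    refine (Finset.card_nsmul_le_sum Gd _ _ hlow).trans ?_
    exact Finset.sum_le_sum_of_subset_of_nonneg (filter_subset _ _) fun _ _ _ => Nat.cast_nonneg _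
  have hx1 : 0 ≤ 1 - ε / 2 := by linarith
  have ha0 : 0 < δ - ε / 4 := by linarith
  have hTk1 : 0 < (T : ℝ) ^ (k + 1) := by positivity
  have hnT1 : 0 < n ^ T := by positivity
  have hfin : (δ - ε / 4) * (1 - ε / 2) * n ^ (k + 1) ≤ Y.card := by
    have h1 : ((1 - ε / 2) * n ^ T) * ((δ - ε / 4) * (T : ℝ) ^ (k + 1)) * n ^ (k + 1) ≤
        (T : ℝ) ^ (k + 1) * (n ^ T * Y.card) := by
      refine le_trans ?_ hdcR
      apply mul_le_mul_of_nonneg_right _ (by positivity)
      refine le_trans ?_ hsum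
      exact mul_le_mul_of_nonneg_right hGd' (by positivity)
    have h2 : ((T : ℝ) ^ (k + 1) * n ^ T) * ((δ - ε / 4) * (1 - ε / 2) * n ^ (k + 1)) ≤
        ((T : ℝ) ^ (k + 1) * n ^ T) * Y.card := by
      calc ((T : ℝ) ^ (k + 1) * n ^ T) * ((δ - ε / 4) * (1 - ε / 2) * n ^ (k + 1)) =
          ((1 - ε / 2) * n ^ T) * ((δ - ε / 4) * (T : ℝ) ^ (k + 1)) * n ^ (k + 1) := by ring
        _ ≤ _ := h1
        _ = _ := by ring
    exact le_of_mul_le_mul_left h2 (by positivity)
  refine le_trans ?_ hfin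
  apply mul_le_mul_of_nonneg_right _ (by positivity)
  nlinarith [sq_nonneg ε]

end Pool.Agent.W25.QL
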