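import Mathlib
import Pool.Agent.W25.UB.Stm7
import Pool.Agent.W25.QL.Main
import Pool.Agent.W25.QL.Count
import Pool.Agent.H732R3.QuarterEv
import Pool.Agent.W150.UBC1a

/-!
The coloured theorem with the constant `lam = 4 - c` for shifts, at every large scale.
-/

set_option autoImplicit false

namespace Pool.Agent.W25.QL

open Finset Filter Topology
open Pool.Agent.W25.UN (Fm uB wB)
open Pool.Agent.H410R2 (WW)
open Pool.Agent.W25.UB (ThmVG CopAt)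
open Pool.Agent.H732R3.BigQ (ev_of_cover)

/-- the coloured Maynard-Tao theorem for shifts, `T / lam` of the classes, for all large `x` -/
def LamEv (lam : ℝ) : Prop := ∀ T : ℕ, ∃ K : ℕ, 1 ≤ K ∧ (1 ≤ T → ∀ H : Fin T → Fin K → ℕ,
    Function.Injective (fun x : Fin T × Fin K => H x.1 x.2) →
    (∀ p : ℕ, p.Prime → p ≤ T * K → ∃ r : ℕ, ∀ g i, ¬ H g i ≡ r [MOD p]) →
    ∀ η : ℝ, 0 < η → ∀ᶠ x : ℝ in atTop,
    ∃ (S : Finset (Fin T)) (c : Fin T → Fin K), (T : ℝ) ≤ lam * (S.card : ℝ) ∧ x ^ (1 - η) ≤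
      ({n : ℕ | n ∈ {n : ℕ | ∀ g ∈ S, (n + H g (c g)).Prime} ∧ (n : ℝ) ≤ x}.ncard : ℝ))

/-- large primes are no obstruction -/
theorem adm_all {T K : ℕ} (H : Fin T → Fin K → ℕ)
    (hH : ∀ p : ℕ, p.Prime → p ≤ T * K → ∃ r : ℕ, ∀ g i, ¬ H g i ≡ r [MOD p]) (p : ℕ)
    (hp : p.Prime) : ∃ r : ℕ, ∀ g i, ¬ H g i ≡ r [MOD p] := by
  classical
  rcases le_or_gt p (T * K) with h | h
  · exact hH p hp h
  · have h1 : ((univ : Finset (Fin T × Fin K)).image (fun x => H x.1 x.2 % p)).card < p := by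
      refine lt_of_le_of_lt card_image_le ?_
      rw [card_univ, Fintype.card_prod, Fintype.card_fin, Fintype.card_fin]
      exact h
    obtain ⟨r, hr1, hr2⟩ : ∃ r ∈ range p,
        r ∉ (univ : Finset (Fin T × Fin K)).image (fun x => H x.1 x.2 % p) := by
      by_contra hcon
      push Not at hcon
      have h2 : range p ⊆ (univ : Finset (Fin T × Fin K)).image (fun x => H x.1 x.2 % p) := hcon
      have h3 := card_le_card h2
      rw [card_range] at h3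
      omega
    refine ⟨r, fun g i hgi => hr2 ?_⟩
    rw [mem_image]
    refine ⟨(g, i), mem_univ _, ?_⟩
    rw [mem_range] at hr1
    have h4 : H g i % p = r % p := hgi
    rw [Nat.mod_eq_of_lt hr1] at h4
    exact h4

/-- the residue class -/
theorem crt {T K : ℕ} (H : Fin T → Fin K → ℕ)
    (hH : ∀ p : ℕ, p.Prime → ∃ r : ℕ, ∀ g i, ¬ H g i ≡ r [MOD p]) (m0 D : ℕ) :
    ∃ v : ℕ, ∀ n : ℤ, n ≡ v [ZMOD (WW D)] →
      ∀ p : ℕ, p.Prime → p ≤ D → ∀ g i, ¬ (p : ℤ) ∣ n - m0 + (H g i : ℕ) := by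
  classical
  have hres : ∀ p : ℕ, ∃ r : ℕ, p.Prime → ∀ n : ℤ, n ≡ r [ZMOD p] →
      ∀ g i, ¬ (p : ℤ) ∣ n - m0 + (H g i : ℕ) := by
    intro p
    by_cases hp : p.Prime
    swap
    · exact ⟨0, fun h => absurd h hp⟩
    obtain ⟨r, hr⟩ := hH p hp
    have hp0 : (0 : ℤ) < p := by exact_mod_cast hp.pos
    refine ⟨((((m0 : ℤ) - r) % p).toNat), fun _ n hn g i hd => hr g i ?_⟩
    have h1 : n ≡ (m0 : ℤ) - r [ZMOD p] := by
      refine hn.trans ?_
      rw [Int.toNat_of_nonneg (Int.emod_nonneg _ hp0.ne')]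
      exact Int.mod_modEq _ _
    have h2 : (p : ℤ) ∣ (m0 : ℤ) - r - n := Int.modEq_iff_dvd.1 h1
    have h3 : (p : ℤ) ∣ ((H g i : ℕ) : ℤ) - r := by
      have e : ((H g i : ℕ) : ℤ) - r = ((m0 : ℤ) - r - n) + (n - m0 + (H g i : ℕ)) := by ring
      rw [e]; exact dvd_add h2 hd
    exact (Int.natCast_modEq_iff.1 (Int.modEq_iff_dvd.2 h3)).symm
  choose r hr using hres
  set S : Finset ℕ := (Icc 1 D).filter Nat.Prime with hS
  have hSp : ∀ p ∈ S, p.Prime := fun p hp => by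
    simp only [hS, mem_filter] at hp; exact hp.2
  have hpair : Set.Pairwise (S : Set ℕ) (Function.onFun Nat.Coprime fun p => p) := by
    intro s hs t ht hst
    exact (Nat.coprime_primes (hSp s hs) (hSp t ht)).2 hst
  obtain ⟨v, hv⟩ := Nat.chineseRemainderOfFinset r (fun p => p) S
    (fun t ht => (hSp t ht).ne_zero) hpair
  refine ⟨v, fun n hn p hp hpD g i => ?_⟩
  have hpS : p ∈ S := by
    simp only [hS, mem_filter, mem_Icc]
    exact ⟨⟨hp.one_le, hpD⟩, hp⟩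
  have hpW : p ∣ WW D := by
    rw [WW]
    exact dvd_prod_of_mem _ hpS
  exact hr p hp n ((hn.of_dvd (by exact_mod_cast hpW)).trans
    (Int.natCast_modEq_iff.2 (hv p hpS))) g i

theorem card_cl {T K : ℕ} (g : Fin T) :
    (univ.filter (fun j : Fin (T * K) => (finProdFinEquiv.symm j).1 = g)).card = K := by
  have h1 : (univ.filter (fun j : Fin (T * K) => (finProdFinEquiv.symm j).1 = g)).card =
      (({g} : Finset (Fin T)) ×ˢ (univ : Finset (Fin K))).card := by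
    apply Finset.card_equiv finProdFinEquiv.symm
    intro j
    simp [eq_comm]
  rw [h1, card_product]
  simp

open Classical in
/-- many `b ≤ x` for which `M + 1` classes contain primes -/
theorem scale {T K M : ℕ} (hT : 1 ≤ T) (hK : 1 ≤ K)
    (hV : ∀ (α h : Fin (T * K) → ℤ) (cl : Fin (T * K) → Fin T),
    (∀ g, (univ.filter (fun i => cl i = g)).card = K) → (∀ i, α i = 1 ∨ α i = -1) →
    (∀ i j, i ≠ j → ¬ (α i = α j ∧ h i = h j)) → ∃ D₀ : ℕ, ∀ D : ℕ, D₀ ≤ D →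
    ∀ η : ℝ, 0 < η → ∀ᶠ N : ℕ in atTop, ∀ v : ℕ, CopAt α h D N v →
      (N : ℝ) ^ (1 - η) ≤ (((Icc 1 N).filter (fun n : ℕ => n ≡ v [MOD (WW D)] ∧
        (N : ℝ) / 16 ≤ n ∧ (n : ℝ) ≤ N / 2 ∧
        M + 1 ≤ (univ.filter (fun g : Fin T => ∃ i, cl i = g ∧
          (Fm α h N i n).toNat.Prime)).card)).card : ℝ))
    (H : Fin T → Fin K → ℕ)
    (hinj : Function.Injective (fun x : Fin T × Fin K => H x.1 x.2))
    (hH : ∀ p : ℕ, p.Prime → ∃ r : ℕ, ∀ g i, ¬ H g i ≡ r [MOD p]) (η : ℝ) (hη : 0 < η) :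
    ∀ᶠ x : ℝ in atTop, x ^ (1 - η) ≤ ({b : ℕ | b ∈ {b : ℕ | M + 1 ≤
      (univ.filter (fun g : Fin T => ∃ i, (b + H g i).Prime)).card} ∧ (b : ℝ) ≤ x}.ncard : ℝ) := by
  obtain ⟨m0, hm0⟩ : ∃ m0, H ⟨0, hT⟩ ⟨0, hK⟩ = m0 := ⟨_, rfl⟩
  set e : Fin (T * K) ≃ Fin T × Fin K := finProdFinEquiv.symm with he
  set h : Fin (T * K) → ℤ := fun j => (H (e j).1 (e j).2 : ℤ) - m0 with hh
  obtain ⟨D, hD⟩ := hV (fun _ => 1) h (fun j => (e j).1) (fun g => card_cl g)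
    (fun _ => Or.inl rfl) (by
      rintro i j hij ⟨-, h1⟩
      apply hij
      apply e.injective
      apply hinj
      simp only [hh] at h1
      simp only
      omega)
  obtain ⟨v, hv⟩ := crt H hH m0 D
  have hW : 0 < WW D := by
    rw [WW]; exact prod_pos fun p hp => (mem_filter.1 hp).2.pos
  have hWr : (0 : ℝ) < (WW D : ℝ) := by exact_mod_cast hW
  obtain ⟨η₁, hη₁, hη₁0, hη₁1, hη₁η⟩ : ∃ η₁ : ℝ, η₁ = min η 1 ∧ 0 < η₁ ∧ η₁ ≤ 1 ∧ η₁ ≤ η :=
    ⟨_, rfl, lt_min hη one_pos, min_le_right _ _, min_le_left _ _⟩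
  have hev := hD D le_rfl (η₁ / 2) (by linarith)
  have hfl : Tendsto (fun x : ℝ => ⌊x / (2 * WW D)⌋₊) atTop atTop :=
    tendsto_nat_floor_atTop.comp (tendsto_id.atTop_div_const (by positivity))
  have ht : Tendsto (fun x : ℝ => WW D * ⌊x / (2 * WW D)⌋₊) atTop atTop :=
    tendsto_atTop_mono (fun m => Nat.le_mul_of_pos_left _ hW) hfl
  have ht1 : Tendsto (fun x : ℝ => ((WW D * ⌊x / (2 * WW D)⌋₊ : ℕ) : ℝ)) atTop atTop :=
    tendsto_natCast_atTop_atTop.comp ht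
  filter_upwards [ht.eventually hev, ht.eventually (eventually_ge_atTop (m0 + D + 1)),
    ((tendsto_rpow_atTop (show 0 < η₁ / 2 by linarith)).comp ht1).eventually_ge_atTop 4,
    hfl.eventually (eventually_ge_atTop 1), eventually_ge_atTop (1 : ℝ)]
    with x h1 h2 h3 h40 hx1
  simp only [Function.comp] at h3
  have hx0 : 0 < x := by linarith
  have hWm : WW D ∣ WW D * ⌊x / (2 * WW D)⌋₊ := dvd_mul_right _ _
  have hNx : 2 * ((WW D * ⌊x / (2 * WW D)⌋₊ : ℕ) : ℝ) ≤ x := by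
    have h5 : (⌊x / (2 * WW D)⌋₊ : ℝ) ≤ x / (2 * WW D) := Nat.floor_le (by positivity)
    rw [le_div_iff₀ (by positivity)] at h5
    push_cast
    linarith
  have hxN : x ≤ 4 * ((WW D * ⌊x / (2 * WW D)⌋₊ : ℕ) : ℝ) := by
    have h5 : x / (2 * WW D) < ⌊x / (2 * WW D)⌋₊ + 1 := Nat.lt_floor_add_one _
    rw [div_lt_iff₀ (by positivity)] at h5
    have h6 : (1 : ℝ) ≤ (⌊x / (2 * WW D)⌋₊ : ℝ) := by exact_mod_cast h40
    push_cast
    nlinarith
  generalize WW D * ⌊x / (2 * WW D)⌋₊ = Nn at h1 h2 h3 hWm hNx hxN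
  have hcop : CopAt (fun _ => 1) h D Nn v := by
    intro j n hn
    have hA := hv n hn
    have eW : ((WW D : ℕ) : ℤ) = ∏ p ∈ (Icc 1 D).filter Nat.Prime, (p : ℤ) := by
      rw [WW]; push_cast; rfl
    rw [eW]
    refine IsCoprime.prod_right fun p hp => ?_
    have hpW : (p : ℤ) ∣ (Nn : ℤ) := by
      refine Int.natCast_dvd_natCast.2 (dvd_trans ?_ hWm)
      rw [WW]; exact dvd_prod_of_mem _ hp
    rw [mem_filter, mem_Icc] at hp
    have hpp := Nat.prime_iff_prime_int.1 hp.2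
    have key := hA p hp.2 hp.1.2
    refine (hpp.coprime_iff_not_dvd.2 ?_).symm
    rcases j with _ | i
    · intro hd
      apply key ⟨0, hT⟩ ⟨0, hK⟩
      have e1 : n - m0 + ((H ⟨0, hT⟩ ⟨0, hK⟩ : ℕ) : ℤ) = uB (fun _ : Fin (T * K) => 1) none * n +
          wB h Nn none := by
        rw [hm0]
        show _ = 1 * n + 0
        ring
      rw [e1]; exact hd
    · intro hd
      apply key (e i).1 (e i).2
      have e1 : n - m0 + ((H (e i).1 (e i).2 : ℕ) : ℤ) =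
          (uB (fun _ : Fin (T * K) => 1) (some i) * n + wB h Nn (some i)) - Nn := by
        show _ = (1 * n + (Nn + h i)) - Nn
        simp only [hh]
        ring
      rw [e1]; exact dvd_sub hd hpW
  have h4 := h1 v hcop
  have hNn1 : (1 : ℝ) ≤ Nn := by exact_mod_cast (by omega : 1 ≤ Nn)
  have hNn0 : (0 : ℝ) < Nn := by linarith
  have h5 : x ^ (1 - η) ≤ (Nn : ℝ) ^ (1 - η₁ / 2) := by
    calc x ^ (1 - η) ≤ x ^ (1 - η₁) := Real.rpow_le_rpow_of_exponent_le hx1 (by linarith)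
      _ ≤ (4 * (Nn : ℝ)) ^ (1 - η₁) := Real.rpow_le_rpow hx0.le hxN (by linarith)
      _ = (4 : ℝ) ^ (1 - η₁) * (Nn : ℝ) ^ (1 - η₁) := Real.mul_rpow (by norm_num) hNn0.le
      _ ≤ (Nn : ℝ) ^ (η₁ / 2) * (Nn : ℝ) ^ (1 - η₁) := by
          refine mul_le_mul_of_nonneg_right (le_trans ?_ h3) (Real.rpow_nonneg hNn0.le _)
          calc (4 : ℝ) ^ (1 - η₁) ≤ 4 ^ (1 : ℝ) :=
              Real.rpow_le_rpow_of_exponent_le (by norm_num) (by linarith)
            _ = 4 := Real.rpow_one 4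
      _ = (Nn : ℝ) ^ (1 - η₁ / 2) := by
          rw [← Real.rpow_add hNn0]; congr 1; ring
  refine h5.trans (h4.trans ?_)
  generalize hSdef : ((Icc 1 Nn).filter (fun n : ℕ => n ≡ v [MOD (WW D)] ∧
      (Nn : ℝ) / 16 ≤ n ∧ (n : ℝ) ≤ Nn / 2 ∧
      M + 1 ≤ (univ.filter (fun g : Fin T => ∃ i, (e i).1 = g ∧
        (Fm (fun _ => 1) h Nn i n).toNat.Prime)).card)) = S
  have hinjS : Set.InjOn (fun n : ℕ => Nn + n - m0) (S : Set ℕ) := by
    intro n _ n' _ hnn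
    simp only at hnn
    omega
  have hcard : S.card = ((S.image (fun n : ℕ => Nn + n - m0) : Finset ℕ) : Set ℕ).ncard := by
    rw [Set.ncard_coe_finset, card_image_of_injOn hinjS]
  rw [hcard]
  refine Nat.cast_le.2 (Set.ncard_le_ncard ?_ (Pool.Agent.H732R3.BigQ.fin_le _ _))
  intro b hb
  rw [mem_coe, mem_image] at hb
  obtain ⟨n, hn, rfl⟩ := hb
  rw [← hSdef, mem_filter, mem_Icc] at hn
  obtain ⟨⟨hn1, hn2⟩, -, -, hnN, hn3⟩ := hn
  have hbc : ((Nn + n - m0 : ℕ) : ℤ) = Nn + n - m0 := by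
    rw [Nat.cast_sub (by omega)]; push_cast; rfl
  refine ⟨?_, ?_⟩
  · show M + 1 ≤ (univ.filter (fun g : Fin T => ∃ i, (Nn + n - m0 + H g i).Prime)).card
    refine hn3.trans (card_le_card ?_)
    intro g hg
    rw [mem_filter] at hg ⊢
    obtain ⟨-, i, hi, hp⟩ := hg
    refine ⟨mem_univ _, (e i).2, ?_⟩
    have hF : (Fm (fun _ => 1) h Nn i n).toNat = Nn + n - m0 + H (e i).1 (e i).2 := by
      have e1 : Fm (fun _ => 1) h Nn i n = ((Nn + n - m0 + H (e i).1 (e i).2 : ℕ) : ℤ) := by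
        rw [Nat.cast_add, hbc]
        simp only [Fm, hh]
        ring
      rw [e1, Int.toNat_natCast]
    rw [hF, hi] at hp
    exact hp
  · have h9 : ((Nn + n - m0 : ℕ) : ℝ) ≤ ((Nn + n : ℕ) : ℝ) :=
      Nat.cast_le.2 (Nat.sub_le _ _)
    push_cast at h9
    have h10 : ((Nn + n - m0 : ℕ) : ℝ) ≤ (Nn : ℝ) + n := h9
    linarith

open Classical in
theorem lamEv (hV : ThmVG) : ∃ c : ℝ, 0 < c ∧ c < 1 ∧ LamEv (4 - c) := by
  obtain ⟨c, hc0, hc1, hV⟩ := hV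
  refine ⟨c, hc0, hc1, fun T => ?_⟩
  rcases Nat.eq_zero_or_pos T with rfl | hT
  · exact ⟨1, le_rfl, fun h => absurd h (by norm_num)⟩
  have hlam : (0 : ℝ) < 4 - c := by linarith
  have hTr : (0 : ℝ) < T := by exact_mod_cast hT
  obtain ⟨M, hM⟩ : ∃ M : ℕ, M + 1 = ⌈(T : ℝ) / (4 - c)⌉₊ := by
    have : 0 < ⌈(T : ℝ) / (4 - c)⌉₊ := Nat.ceil_pos.2 (by positivity)
    exact ⟨⌈(T : ℝ) / (4 - c)⌉₊ - 1, by omega⟩
  have hMlt : (4 - c) * (M : ℝ) < T := by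
    have h1 : (M : ℝ) < (T : ℝ) / (4 - c) := by
      rw [← Nat.lt_ceil]
      omega
    rw [lt_div_iff₀ hlam] at h1
    linarith
  have hMge : (T : ℝ) ≤ (4 - c) * ((M + 1 : ℕ) : ℝ) := by
    have h1 : (T : ℝ) / (4 - c) ≤ ((M + 1 : ℕ) : ℝ) := by
      rw [hM]; exact Nat.le_ceil _
    rw [div_le_iff₀ hlam] at h1
    linarith
  obtain ⟨K, hK2, hK⟩ := hV T M hT hMlt
  refine ⟨K, by omega, fun _ H hinj hH η hη => ?_⟩
  have hsc := scale (M := M) hT (by omega) hK H hinj (adm_all H hH)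
  set F : Finset (Fin T) × (Fin T → Fin K) → Set ℕ := fun z =>
    {n | M + 1 ≤ z.1.card ∧ ∀ g ∈ z.1, (n + H g (z.2 g)).Prime} with hF
  have hcov : {b : ℕ | M + 1 ≤ (univ.filter (fun g : Fin T => ∃ i, (b + H g i).Prime)).card} ⊆
      ⋃ z, F z := by
    intro b hb
    have h1 : ∀ g : Fin T, ∃ i : Fin K, (∃ j, (b + H g j).Prime) → (b + H g i).Prime := by
      intro g
      by_cases h2 : ∃ j, (b + H g j).Prime
      · obtain ⟨j, hj⟩ := h2
        exact ⟨j, fun _ => hj⟩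
      · exact ⟨⟨0, by omega⟩, fun h3 => absurd h3 h2⟩
    choose cc hcc using h1
    rw [Set.mem_iUnion]
    refine ⟨(univ.filter (fun g : Fin T => ∃ i, (b + H g i).Prime), cc), hb, fun g hg => ?_⟩
    exact hcc g (mem_filter.1 hg).2
  filter_upwards [ev_of_cover F _ (fun η hη => hsc η hη) hcov η hη, eventually_gt_atTop (0 : ℝ)]
    with x hx hx0
  obtain ⟨⟨S, cc⟩, hS⟩ := hx
  have hpos : 0 < x ^ (1 - η) := Real.rpow_pos_of_pos hx0 _
  have hne : ({n : ℕ | n ∈ F (S, cc) ∧ (n : ℝ) ≤ x}).Nonempty := by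
    by_contra hcon
    rw [Set.not_nonempty_iff_eq_empty] at hcon
    rw [hcon, Set.ncard_empty] at hS
    push_cast at hS
    linarith
  obtain ⟨n, ⟨hn1, -⟩, -⟩ := hne
  refine ⟨S, cc, ?_, hS.trans ?_⟩
  · refine hMge.trans (mul_le_mul_of_nonneg_left ?_ hlam.le)
    exact_mod_cast hn1
  · refine Nat.cast_le.2 (Set.ncard_le_ncard ?_ (Pool.Agent.H732R3.BigQ.fin_le _ _))
    rintro m ⟨hm, hmx⟩
    exact ⟨hm.2, hmx⟩

end Pool.Agent.W25.QL
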